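import Pool.Agent.H64.EP.Targets

/-!
# Module HOL of the board ep_modules
-/

set_option autoImplicit false

namespace Pool.Agent.H12.EP.HOL

open Pool.Agent.H64.EP

theorem avg_pos {α : Type} [Fintype α] [Nonempty α] (f : α → ℝ) :
    0 < avg (fun a => Real.exp (f a)) := by
  unfold avg
  apply div_pos
  · exact Finset.sum_pos (fun a _ => Real.exp_pos _) Finset.univ_nonempty
  · exact_mod_cast Fintype.card_pos

theorem pf_HOL : T_HOL := by
  intro α _ _ k hk ψ
  have hk0 : (0 : ℝ) < k := by exact_mod_cast hk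
  have hc : (0 : ℝ) < (Fintype.card α : ℝ) := by exact_mod_cast Fintype.card_pos
  obtain ⟨F, hF⟩ : ∃ F : Fin k → ℝ, ∀ i, F i = avg (fun a => Real.exp (ψ i a)) :=
    ⟨_, fun i => rfl⟩
  have hFpos : ∀ i, 0 < F i := fun i => by
    rw [hF i]
    exact avg_pos (ψ i)
  have key : ∀ a, Real.exp ((∑ i, ψ i a) / k) ≤
      Real.exp ((∑ i, Real.log (F i)) / k) * ((∑ i, Real.exp (ψ i a) / F i) / k) := by
    intro a
    have h1 := convexOn_exp.map_sum_le (t := (Finset.univ : Finset (Fin k)))
      (w := fun _ => 1 / (k : ℝ)) (p := fun i => ψ i a - Real.log (F i))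
      (fun i _ => by positivity) (by
        rw [Finset.sum_const, Finset.card_univ, Fintype.card_fin, nsmul_eq_mul]
        field_simp) (fun i _ => Set.mem_univ _)
    simp only [smul_eq_mul] at h1
    have h2 : ∑ i : Fin k, 1 / (k : ℝ) * (ψ i a - Real.log (F i)) =
        (∑ i, ψ i a) / k - (∑ i, Real.log (F i)) / k := by
      rw [← Finset.mul_sum, Finset.sum_sub_distrib]
      ring
    have h3 : ∑ i : Fin k, 1 / (k : ℝ) * Real.exp (ψ i a - Real.log (F i)) =
        (∑ i, Real.exp (ψ i a) / F i) / k := by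
      rw [← Finset.mul_sum]
      have : ∀ i, Real.exp (ψ i a - Real.log (F i)) = Real.exp (ψ i a) / F i := fun i => by
        rw [Real.exp_sub, Real.exp_log (hFpos i)]
      simp only [this]
      ring
    rw [h2, h3, Real.exp_sub, div_le_iff₀ (Real.exp_pos _)] at h1
    linarith
  have hav : avg (fun a => Real.exp ((∑ i, ψ i a) / k)) ≤
      Real.exp ((∑ i, Real.log (F i)) / k) := by
    have h1 : ∑ a, Real.exp ((∑ i, ψ i a) / k) ≤
        ∑ a, Real.exp ((∑ i, Real.log (F i)) / k) * ((∑ i, Real.exp (ψ i a) / F i) / k) :=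
      Finset.sum_le_sum fun a _ => key a
    have h2 : ∑ a, Real.exp ((∑ i, Real.log (F i)) / k) * ((∑ i, Real.exp (ψ i a) / F i) / k) =
        Real.exp ((∑ i, Real.log (F i)) / k) * (Fintype.card α : ℝ) := by
      rw [← Finset.mul_sum, ← Finset.sum_div, Finset.sum_comm]
      have h3 : ∀ i, ∑ a, Real.exp (ψ i a) / F i = (Fintype.card α : ℝ) := by
        intro i
        have h4 : ∑ a, Real.exp (ψ i a) = F i * (Fintype.card α : ℝ) := by
          rw [hF i]
          unfold avg
          field_simp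
        rw [← Finset.sum_div, h4]
        have := (hFpos i).ne'
        field_simp
      simp only [h3]
      rw [Finset.sum_const, Finset.card_univ, Fintype.card_fin, nsmul_eq_mul]
      field_simp
    unfold avg
    rw [div_le_iff₀ hc]
    linarith
  have hpos : 0 ≤ avg (fun a => Real.exp ((∑ i, ψ i a) / k)) := (avg_pos _).le
  calc (avg (fun a => Real.exp ((∑ i, ψ i a) / k))) ^ k
      ≤ (Real.exp ((∑ i, Real.log (F i)) / k)) ^ k := pow_le_pow_left₀ hpos hav k
    _ = ∏ i, F i := by
        rw [← Real.exp_nat_mul, mul_div_cancel₀ _ hk0.ne', Real.exp_sum]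
        exact Finset.prod_congr rfl fun i _ => Real.exp_log (hFpos i)
    _ = ∏ i, avg (fun a => Real.exp (ψ i a)) := Finset.prod_congr rfl fun i _ => hF i

end Pool.Agent.H12.EP.HOL
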