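import Pool.Agent.H64.EP.Targets

/-!
# Module K3 of the board ep_modules
-/

set_option autoImplicit false

namespace Pool.Agent.H12.EP.K3

open Pool.Agent.H64.EP

theorem pf_K3 (hG : T_GI) (hM : T_MAC) : T_K3 := by
  intro L q hq ψ hψ
  have hq0 : (0 : ℝ) < q := by exact_mod_cast hq
  have hq1 : (q : ℝ) ≠ 0 := hq0.ne'
  let K : Fin L → Unit → Fin (q + 1) → Fin (q + 1) → ℝ :=
    fun _ _ s s' => if s' = s then 0 else 1 / (q : ℝ)
  have hker : ∀ e, IsKer (K e) := by
    intro e
    refine ⟨fun i z x => ?_, fun i z => ?_⟩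
    · change 0 ≤ (if x = z then 0 else 1 / (q : ℝ))
      split_ifs
      · exact le_rfl
      · positivity
    · change ∑ x : Fin (q + 1), (if x = z then 0 else 1 / (q : ℝ)) = 1
      have h1 : ∀ x : Fin (q + 1), (if x = z then 0 else 1 / (q : ℝ)) =
          1 / (q : ℝ) - (if x = z then 1 / (q : ℝ) else 0) := by
        intro x
        split_ifs
        · ring
        · ring
      simp only [h1]
      rw [Finset.sum_sub_distrib, Finset.sum_const, Finset.card_univ, Fintype.card_fin,
        Finset.sum_ite_eq' Finset.univ z, if_pos (Finset.mem_univ z), nsmul_eq_mul]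
      push_cast
      field_simp
      ring
  have hHI : ∀ e, HI q (K e) := by
    intro e φ hφ
    have h := hM q (φ ())
    have hz : ∀ z : Fin (q + 1), (q : ℝ) * ∑ i : Unit, ∑ x, K e i z x * φ i x =
        ∑ s', if s' = z then 0 else φ () s' := by
      intro z
      rw [Fintype.sum_unique, Finset.mul_sum]
      refine Finset.sum_congr rfl fun x _ => ?_
      change (q : ℝ) * ((if x = z then 0 else 1 / (q : ℝ)) * φ () x) = _
      split_ifs
      · ring
      · field_simp
    simp only [hz, Fintype.prod_unique]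
    exact h
  have h := hG Unit (Fin L) (Fin (q + 1)) q K hq hker hHI (fun _ => ψ) (fun _ x => hψ x)
  have hz : ∀ σ : Fin L → Fin (q + 1),
      ∑ i : Unit, ∑ x : Fin L → Fin (q + 1), (∏ e, K e i (σ e) (x e)) * ψ x =
        (∑ σ' : Fin L → Fin (q + 1), if (∀ t, σ' t ≠ σ t) then ψ σ' else 0) / (q : ℝ) ^ L := by
    intro σ
    rw [Fintype.sum_unique, Finset.sum_div]
    refine Finset.sum_congr rfl fun x _ => ?_
    change (∏ e, (if x e = σ e then 0 else 1 / (q : ℝ))) * ψ x = _
    by_cases hx : ∀ t, x t ≠ σ t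
    · rw [if_pos hx, Finset.prod_congr rfl (fun e _ => if_neg (hx e)), Finset.prod_const,
        Finset.card_univ, Fintype.card_fin, div_pow, one_pow]
      ring
    · rw [if_neg hx]
      push Not at hx
      obtain ⟨t, ht⟩ := hx
      have h0 : ∏ e, (if x e = σ e then (0 : ℝ) else 1 / (q : ℝ)) = 0 :=
        Finset.prod_eq_zero (Finset.mem_univ t) (by rw [if_pos ht])
      rw [h0]
      simp
  simp only [hz, Fintype.prod_unique] at h
  exact h

end Pool.Agent.H12.EP.K3
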